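import Pool.Agent.Q153.Turan

/-!
MP_b466f1_co: the conjectured characterization of the Turánable oriented graphs fails.  The
definitions (`OGraph`, `Sub`, `SemiRegular`, `Turanable`, `cyc`, `F`) are in
`Pool/Agent/Q153/Turan.lean`.

* An oriented graph lies in some `F_r` and in some `C_{2k+1}^k` if and only if it lies in a product
  of the two (edges in both coordinates); `H K R` is such a product.
* Let `n = 2m + 1`.  The tournament `T m` consists of three transitive pieces `A_0, A_1, A_2` with
  the vertices `0, ..., n - 1`; a vertex `x` of a piece has an edge to the vertex `y` of the next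
  piece if `(-x - y mod n) < x`, that is if `n < 2x + y, x + y ≤ n` or `2n < 2x + y`.  All in- and
  out-degrees are `(3n - 1)/2`.  All boundary lines of this relation have a negative slope; so the
  relation changes at most three times along an increasing path in `A_i × A_{i+1}`.
* By the Ramsey property of `F_R` and the pigeonhole principle a copy of `H K R` in `T m` would
  contain vertices `x_1, x_2, x_3` in one piece and `y_1, y_2, y_3` in one piece with
  `x_t → x_{t+1} → y_t → x_t` and `y_t → y_{t+1} → x_{t+1}`, that is an increasing path with at least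
  four changes.
-/

set_option autoImplicit false

namespace Pool.Agent.Results.MP_b466f1_co.Disproof

open Pool.Agent.Q153.Turan

/-- There is a finite oriented graph `G` which is contained in some `F_r` and in some
`C_{2k+1}^k` and which is not Turánable. -/
theorem result : ∃ (V : Type) (_ : Finite V) (G : OGraph V),
    (∃ r ≥ 1, G.Sub (F r)) ∧ (∃ k ≥ 1, G.Sub (cyc k)) ∧ ¬ G.Turanable := by
  classical
  refine ⟨(Bool × Fin 46) × (Fin (Fintype.card (Bool × Fin 46 → Fin 3)) → Fin 3), inferInstance,
    H 46 _, ⟨_, ?_, H_sub_F 46 _⟩, ⟨_, ?_, H_sub_cyc 46 _⟩, ?_⟩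
  · rw [Fintype.card_prod, Fintype.card_bool, Fintype.card_fin]
    omega
  · have : 0 < Fintype.card (Fin (Fintype.card (Bool × Fin 46 → Fin 3)) → Fin 3) :=
      Fintype.card_pos
    omega
  · rintro ⟨n₀, hn⟩
    refine not_sub_T n₀ 46 _ le_rfl le_rfl (hn (Fin 3 × ZMod (2 * n₀ + 1)) ?_ (T n₀)
      (T_semiRegular n₀))
    rw [Nat.card_prod, Nat.card_eq_fintype_card, Nat.card_eq_fintype_card, ZMod.card,
      Fintype.card_fin]
    omega

end Pool.Agent.Results.MP_b466f1_co.Disproof
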